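import Mathlib

/-!
# Group extensions with the same data on a transversal are isomorphic (row EXTS)
-/

set_option autoImplicit false

namespace Pool.Agent.Helper72.LGS

theorem ext_table {H H' : Type*} [Group H] [Group H'] {N : Subgroup H} {N' : Subgroup H'}
    [N.Normal] [N'.Normal] {ι : Type*} (τ : ι → H) (τ' : ι → H')
    (hτ : ∀ h : H, ∃! a, (τ a)⁻¹ * h ∈ N) (hτ' : ∀ h : H', ∃! a, (τ' a)⁻¹ * h ∈ N')
    (ψ : N ≃* N') (mul : ι → ι → ι) (c : ι → ι → N)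
    (h1 : ∀ a b, τ a * τ b = τ (mul a b) * c a b)
    (h1' : ∀ a b, τ' a * τ' b = τ' (mul a b) * ψ (c a b))
    (h2 : ∀ (a : ι) (n m : N), (m : H) = (τ a)⁻¹ * n * τ a → (ψ m : H') = (τ' a)⁻¹ * ψ n * τ' a) :
    Nonempty (H ≃* H') := by
  choose A hA hAu using hτ
  let Φ : H → H' := fun h => τ' (A h) * ψ ⟨(τ (A h))⁻¹ * h, hA h⟩
  -- the value at `τ a * n`
  have hΦ : ∀ (a : ι) (n : N), Φ (τ a * n) = τ' a * ψ n := by
    intro a n
    have e1 : a = A (τ a * n) := by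
      apply hAu
      show (τ a)⁻¹ * (τ a * (n : H)) ∈ N
      rw [inv_mul_cancel_left]
      exact n.2
    have e2 : (⟨(τ (A (τ a * n)))⁻¹ * (τ a * n), hA (τ a * n)⟩ : N) = n := by
      apply Subtype.ext
      show (τ (A (τ a * n)))⁻¹ * (τ a * n) = (n : H)
      rw [← e1, inv_mul_cancel_left]
    show τ' (A (τ a * n)) * (ψ ⟨(τ (A (τ a * n)))⁻¹ * (τ a * n), hA (τ a * n)⟩ : H') = _
    rw [e2, ← e1]
  have hdec : ∀ h : H, ∃ (a : ι) (n : N), h = τ a * n := fun h =>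
    ⟨A h, ⟨(τ (A h))⁻¹ * h, hA h⟩, by simp⟩
  have hmul : ∀ g h : H, Φ (g * h) = Φ g * Φ h := by
    intro g h
    obtain ⟨a, n, rfl⟩ := hdec g
    obtain ⟨b, m, rfl⟩ := hdec h
    have hk : (τ b)⁻¹ * (n : H) * τ b ∈ N := by
      have := (inferInstance : N.Normal).conj_mem n n.2 (τ b)⁻¹
      rwa [inv_inv] at this
    have e1 : τ a * n * (τ b * m) = τ (mul a b) * ((c a b * ⟨_, hk⟩ * m : N) : H) := by
      have e2 : τ a * (n : H) * (τ b * m) = τ a * τ b * ((τ b)⁻¹ * n * τ b) * m := by group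
      rw [e2, h1]
      simp only [Subgroup.coe_mul, mul_assoc]
    rw [e1, hΦ, hΦ, hΦ, map_mul, map_mul, Subgroup.coe_mul, Subgroup.coe_mul,
      h2 b n ⟨_, hk⟩ rfl, ← mul_assoc, ← mul_assoc, ← h1']
    group
  have hinj : Function.Injective Φ := by
    intro g h hgh
    obtain ⟨a, n, rfl⟩ := hdec g
    obtain ⟨b, m, rfl⟩ := hdec h
    rw [hΦ, hΦ] at hgh
    obtain ⟨d, hd, hdu⟩ := hτ' (τ' a * ψ n)
    have e1 : a = d := by
      apply hdu
      show (τ' a)⁻¹ * (τ' a * (ψ n : H')) ∈ N'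
      rw [inv_mul_cancel_left]
      exact (ψ n).2
    have e2 : b = d := by
      apply hdu
      show (τ' b)⁻¹ * (τ' a * (ψ n : H')) ∈ N'
      rw [hgh, inv_mul_cancel_left]
      exact (ψ m).2
    have e3 : a = b := e1.trans e2.symm
    subst e3
    have e4 : (ψ n : H') = ψ m := mul_left_cancel hgh
    have e5 : n = m := ψ.injective (Subtype.ext e4)
    rw [e5]
  have hsurj : Function.Surjective Φ := by
    intro h
    obtain ⟨d, hd, -⟩ := hτ' h
    refine ⟨τ d * (ψ.symm ⟨(τ' d)⁻¹ * h, hd⟩ : N), ?_⟩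
    rw [hΦ, MulEquiv.apply_symm_apply]
    show τ' d * ((τ' d)⁻¹ * h) = h
    rw [mul_inv_cancel_left]
  exact ⟨MulEquiv.ofBijective (MonoidHom.mk' Φ hmul) ⟨hinj, hsurj⟩⟩

end Pool.Agent.Helper72.LGS
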